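import Pool.Agent.Y166.DP.Stm

/-! Job BASIS: the functions with poles only at infinity. -/

set_option autoImplicit false
set_option linter.unusedSectionVars false

namespace Pool.Agent.Q113.DP

open MvPolynomial FF Pool.Agent.W603.LV Pool.Agent.TH145.GH Pool.Agent.Y166.DP

section
variable {k K : Type} [Field k] [Field K] [Algebra k K] {lam : k} {x y : K}

theorem x_ne (h : Ell k K lam x y) (c : k) : x - algebraMap k K c ≠ 0 := by
  intro h0
  apply h.tr
  rw [sub_eq_zero.1 h0]
  exact isAlgebraic_algebraMap c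

theorem x0 (h : Ell k K lam x y) : x ≠ 0 := by
  have := x_ne h 0
  rwa [map_zero, sub_zero] at this

theorem y0 (h : Ell k K lam x y) : y ≠ 0 := by
  intro h0
  have h1 := h.eqn
  rw [h0, zero_pow (by norm_num)] at h1
  have h2 := x_ne h 1
  rw [map_one] at h2
  exact mul_ne_zero (mul_ne_zero (x0 h) h2) (x_ne h lam) h1.symm

theorem fn_ne (h : Ell k K lam x y) (j : ℕ) : fn x y j ≠ 0 := by
  unfold fn
  split_ifs
  · exact one_ne_zero
  · exact pow_ne_zero _ (x0 h)
  · exact mul_ne_zero (pow_ne_zero _ (x0 h)) (y0 h)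

theorem ord_fn (h : Ell k K lam x y) (o : Place k K) (hx : o.ord x = -2) (hy : o.ord y = -3)
    (j : ℕ) : o.ord (fn x y j) = if j = 0 then 0 else -((j : ℤ) + 1) := by
  unfold fn
  split_ifs with h0 h1
  · exact o.ord_one
  · rw [o.ord_pow, hx]
    obtain ⟨m, rfl⟩ : ∃ m, j = 2 * m + 1 := ⟨j / 2, by omega⟩
    have e : (2 * m + 1 + 1) / 2 = m + 1 := by omega
    rw [e]; push_cast; ring
  · rw [o.ord_mul (pow_ne_zero _ (x0 h)) (y0 h), o.ord_pow, hx, hy]
    obtain ⟨m, rfl⟩ : ∃ m, j = 2 * m + 2 := ⟨j / 2 - 1, by omega⟩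
    have e : (2 * m + 2 - 2) / 2 = m := by omega
    rw [e]; push_cast; ring

theorem ge_fn {P : Place k K} (hx : Ge P 0 x) (hy : Ge P 0 y) (j : ℕ) : Ge P 0 (fn x y j) := by
  unfold fn
  split_ifs
  · exact Ge.one
  · simpa using hx.pow ((j + 1) / 2)
  · simpa using (hx.pow ((j - 2) / 2)).mul hy

theorem ge_fsum {P : Place k K} (hx : Ge P 0 x) (hy : Ge P 0 y) {N : ℕ} (c : Fin N → k) :
    Ge P 0 (fsum x y c) := by
  unfold fsum
  refine Ge.sum _ _ fun j _ => ?_
  simpa using (Ge.const (P := P) (c j)).mul (ge_fn hx hy j)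

theorem ge_fsum_inf (h : Ell k K lam x y) (o : Place k K) (hx : o.ord x = -2) (hy : o.ord y = -3)
    {N : ℕ} (c : Fin N → k) : Ge o (-(N : ℤ)) (fsum x y c) := by
  unfold fsum
  refine Ge.sum _ _ fun j _ => ?_
  have h1 : Ge o (-(N : ℤ)) (fn x y j) := by
    right
    rw [ord_fn h o hx hy]
    have := j.2
    split_ifs <;> omega
  simpa using (Ge.const (P := o) (c j)).mul h1

theorem fsum_castSucc {N : ℕ} (c : Fin (N + 1) → k) :
    fsum x y c = fsum x y (fun j : Fin N => c j.castSucc) +
      algebraMap k K (c (Fin.last N)) * fn x y N := by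
  unfold fsum
  rw [Fin.sum_univ_castSucc]
  rfl

theorem fsum_inj (h : Ell k K lam x y) (o : Place k K) (hx : o.ord x = -2) (hy : o.ord y = -3) :
    ∀ (N : ℕ) (c : Fin N → k), fsum x y c = 0 → c = 0 := by
  intro N
  induction N with
  | zero => intro c _; funext j; exact j.elim0
  | succ N ih =>
    intro c hc
    rw [fsum_castSucc] at hc
    have h1 : c (Fin.last N) = 0 := by
      by_contra hne
      have h2 : algebraMap k K (c (Fin.last N)) ≠ 0 := by
        rwa [Ne, map_eq_zero]
      have h3 := mul_ne_zero h2 (fn_ne h N)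
      have h4 : o.ord (algebraMap k K (c (Fin.last N)) * fn x y N) =
          if N = 0 then 0 else -((N : ℤ) + 1) := by
        rw [o.ord_mul h2 (fn_ne h N), o.ord_const hne, ord_fn h o hx hy, zero_add]
      have h5 : fsum x y (fun j : Fin N => c j.castSucc) =
          -(algebraMap k K (c (Fin.last N)) * fn x y N) := eq_neg_of_add_eq_zero_left hc
      have h6 := ge_fsum_inf h o hx hy (fun j : Fin N => c j.castSucc)
      rcases Nat.eq_zero_or_pos N with hN | hN
      · subst hN
        apply h3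
        have e : fsum x y (fun j : Fin 0 => c j.castSucc) = 0 := by
          unfold fsum; simp
        rw [e] at h5
        exact neg_eq_zero.1 h5.symm
      · rw [h5] at h6
        rcases h6 with h6 | h6
        · exact h3 (neg_eq_zero.1 h6)
        · rw [o.ord_neg, h4, if_neg hN.ne'] at h6
          omega
    rw [h1, map_zero, zero_mul, add_zero] at hc
    have h2 := ih _ hc
    funext j
    refine Fin.lastCases ?_ (fun i => ?_) j
    · exact h1
    · exact congrFun h2 i

end

section
variable {k K : Type} [Field k] [Field K] [Algebra k K] [CharZero k] [IsAlgClosed k] [IsFF k K]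
  {lam : k} {x y : K}

theorem exists_coord (no1 : StmNo1) (h : Ell k K lam x y) (o : Place k K) (hx : o.ord x = -2)
    (hy : o.ord y = -3) (hreg : ∀ P, P ≠ o → Ge P 0 x ∧ Ge P 0 y) :
    ∀ (N : ℕ) (f : K), (∀ P, P ≠ o → Ge P 0 f) → Ge o (-((N : ℤ) + 1)) f →
      ∃ c : Fin (N + 1) → k, f = fsum x y c := by
  intro N
  induction N with
  | zero =>
    intro f hf ho
    by_cases hf0 : f = 0
    · exact ⟨0, by unfold fsum; simp [hf0]⟩
    have h1 : -1 ≤ o.ord f := by
      have := ho.resolve_left hf0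
      simpa using this
    have h2 : o.ord f ≠ -1 := fun h2 => no1 k K lam x y h f o h2 hf
    have h3 : hgt k f ≤ 0 := by
      unfold hgt
      refine le_of_eq (finsum_eq_zero_of_forall_eq_zero fun P => ?_)
      by_cases hP : P = o
      · rw [hP]; omega
      · have := (hf P hP).resolve_left hf0
        omega
    obtain ⟨c, hc⟩ := const_of_hgt h3
    refine ⟨fun _ => c, ?_⟩
    rw [hc]
    unfold fsum fn
    simp
  | succ N ih =>
    intro f hf ho
    have hg := fn_ne h (N + 1)
    have hgo : o.ord (fn x y (N + 1)) = -((N : ℤ) + 2) := by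
      rw [ord_fn h o hx hy, if_neg (by omega)]
      push_cast; ring
    have h1 : Ge o 0 (f / fn x y (N + 1)) := by
      apply Ge.of_mul' hg hgo
      rw [mul_div_cancel₀ _ hg]
      refine ho.mono (le_of_eq ?_)
      push_cast; ring
    obtain ⟨c, hc⟩ := exists_const o h1
    have h2 : Ge o (-((N : ℤ) + 1)) (f - algebraMap k K c * fn x y (N + 1)) := by
      have h3 : Ge o (-((N : ℤ) + 2)) (fn x y (N + 1)) := Or.inr hgo.ge
      have h4 := h3.mul hc
      have e : fn x y (N + 1) * (f / fn x y (N + 1) - algebraMap k K c) =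
          f - algebraMap k K c * fn x y (N + 1) := by
        field_simp
      rw [e] at h4
      refine h4.mono (le_of_eq ?_)
      ring
    obtain ⟨c', hc'⟩ := ih _ (fun P hP => (hf P hP).sub (by
      simpa using (Ge.const (P := P) c).mul (ge_fn (hreg P hP).1 (hreg P hP).2 (N + 1)))) h2
    refine ⟨Fin.snoc c' c, ?_⟩
    rw [fsum_castSucc]
    simp only [Fin.snoc_castSucc, Fin.snoc_last]
    rw [← hc']
    ring

end

theorem basis : StmInf → StmNo1 → StmBasis := by
  intro hinf no1 k K _ _ _ _ _ _ lam x y h o ho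
  obtain ⟨o', hx, hy, hreg⟩ := hinf k K lam x y h
  have e : o = o' := by
    by_contra hne
    rcases (hreg o hne).1 with h1 | h1
    · exact x0 h h1
    · omega
  subst e
  refine ⟨fun j => ⟨fn_ne h j, ord_fn h o hx hy j⟩, fsum_inj h o hx hy, ?_⟩
  intro N hN f
  constructor
  · rintro ⟨h1, h2⟩
    obtain ⟨M, rfl⟩ : ∃ M, N = M + 1 := ⟨N - 1, by omega⟩
    exact exists_coord no1 h o hx hy hreg M f h1 (by simpa using h2)
  · rintro ⟨c, rfl⟩
    exact ⟨fun P hP => ge_fsum (hreg P hP).1 (hreg P hP).2 c, ge_fsum_inf h o hx hy c⟩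

end Pool.Agent.Q113.DP
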