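import Pool.Agent.Q35.DP.Plan
import Pool.Agent.Q113.DP.Basis
import Pool.Agent.Helper386.D5V.Helper386_FF_Riemann

/-! Job RR: Riemann-Roch on the elliptic curve. -/

set_option autoImplicit false
set_option linter.unusedSectionVars false

namespace Pool.Agent.Q113.DP

open MvPolynomial FF Pool.Agent.W603.LV Pool.Agent.TH145.GH Pool.Agent.Y166.DP Pool.Agent.Q35.DP

section
variable {k K : Type} [Field k] [Field K] [Algebra k K]

/-- The coordinate map. -/
def fsumL (x y : K) (N : ℕ) : (Fin N → k) →ₗ[k] K where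
  toFun c := fsum x y c
  map_add' c d := by
    unfold fsum
    rw [← Finset.sum_add_distrib]
    refine Finset.sum_congr rfl fun j _ => ?_
    rw [Pi.add_apply, map_add, add_mul]
  map_smul' a c := by
    unfold fsum
    rw [RingHom.id_apply, Finset.smul_sum]
    refine Finset.sum_congr rfl fun j _ => ?_
    rw [Pi.smul_apply, smul_eq_mul, map_mul, Algebra.smul_def, mul_assoc]

theorem fsumL_apply (x y : K) (N : ℕ) (c : Fin N → k) : fsumL x y N c = fsum x y c := rfl

theorem mem_LL_single [CharZero k] [IsFF k K] {P₀ : Place k K} {n : ℤ} {f : K} :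
    f ∈ LL (Finsupp.single P₀ n) ↔ (∀ P, P ≠ P₀ → Ge P 0 f) ∧ Ge P₀ (-n) f := by
  classical
  rw [mem_LL]
  constructor
  · rintro (rfl | h)
    · exact ⟨fun P _ => Ge.zero, Ge.zero⟩
    · refine ⟨fun P hP => Or.inr ?_, Or.inr ?_⟩
      · have := h P
        rw [Finsupp.single_eq_of_ne hP] at this
        simpa using this
      · have := h P₀
        rwa [Finsupp.single_eq_same] at this
  · rintro ⟨h1, h2⟩
    by_cases hf : f = 0
    · exact Or.inl hf
    · right
      intro P
      by_cases hP : P = P₀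
      · subst hP
        rw [Finsupp.single_eq_same]
        exact h2.resolve_left hf
      · rw [Finsupp.single_eq_of_ne hP]
        simpa using (h1 P hP).resolve_left hf

end

section
variable {k K : Type} [Field k] [Field K] [Algebra k K] [CharZero k] [IsAlgClosed k] [IsFF k K]
  {lam : k} {x y : K}

theorem ell_single (hb : StmBasis) (h : Ell k K lam x y) (o : Place k K) (ho : o.ord x < 0)
    (N : ℕ) (hN : 0 < N) : ell (Finsupp.single o (N : ℤ)) = N := by
  obtain ⟨-, h2, h3⟩ := hb k K lam x y h o ho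
  have e : LL (Finsupp.single o (N : ℤ)) = LinearMap.range (fsumL (k := k) x y N) := by
    ext f
    rw [mem_LL_single, h3 N hN f, LinearMap.mem_range]
    constructor
    · rintro ⟨c, hc⟩; exact ⟨c, hc.symm⟩
    · rintro ⟨c, hc⟩; exact ⟨c, hc.symm⟩
  have hinj : Function.Injective (fsumL (k := k) x y N) := by
    rw [injective_iff_map_eq_zero]
    exact fun c hc => h2 N c hc
  unfold ell
  rw [e, LinearMap.finrank_range_of_inj hinj]
  simp

theorem ddeg_le_ell (hb : StmBasis) (h : Ell k K lam x y) (o : Place k K) (ho : o.ord x < 0)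
    (D : Place k K →₀ ℤ) : ddeg D ≤ ell D := by
  obtain ⟨γ, N, h1, h2⟩ := riemann k K
  have h3 : γ = 0 := by
    have h4 := h2 (Finsupp.single o ((N.toNat + 1 : ℕ) : ℤ)) (by
      rw [ddeg_single, deg_one]; push_cast; omega)
    rw [ell_single hb h o ho _ (Nat.succ_pos _), ddeg_single, deg_one] at h4
    push_cast at h4
    omega
  have := h1 D
  omega

theorem single_le {E : Place k K →₀ ℤ} (hE : 0 ≤ E) {P₀ : Place k K} (h : E P₀ ≠ 0) :
    Finsupp.single P₀ 1 ≤ E := by
  classical
  intro P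
  by_cases hP : P = P₀
  · subst hP
    rw [Finsupp.single_eq_same]
    have := hE P
    rw [Finsupp.coe_zero, Pi.zero_apply] at this
    omega
  · rw [Finsupp.single_eq_of_ne hP]
    exact hE P

theorem eq_zero_of_deg {E : Place k K →₀ ℤ} (hE : 0 ≤ E) (h : ddeg E = 0) : E = 0 := by
  by_contra hne
  obtain ⟨P, hP⟩ : ∃ P, E P ≠ 0 := by
    by_contra hc
    push Not at hc
    exact hne (Finsupp.ext hc)
  have h1 := ddeg_mono (single_le hE hP)
  rw [ddeg_single, deg_one, h] at h1
  norm_num at h1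

theorem eq_single_of_deg {E : Place k K →₀ ℤ} (hE : 0 ≤ E) (h : ddeg E = 1) :
    ∃ P₀, E = Finsupp.single P₀ 1 := by
  obtain ⟨P, hP⟩ : ∃ P, E P ≠ 0 := by
    by_contra hc
    push Not at hc
    have h0 : E = 0 := Finsupp.ext hc
    rw [h0, ddeg_zero] at h
    omega
  refine ⟨P, ?_⟩
  have h1 : 0 ≤ E - Finsupp.single P 1 := sub_nonneg.2 (single_le hE hP)
  have h2 : ddeg (E - Finsupp.single P 1) = 0 := by
    rw [ddeg_sub, ddeg_single, deg_one, h]; norm_num
  exact sub_eq_zero.1 (eq_zero_of_deg h1 h2)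

/-- A function with at most one pole, of order at most one, is constant. -/
theorem const_of_pole (no1 : StmNo1) (h : Ell k K lam x y) (P₀ : Place k K) {f : K}
    (hf : ∀ P, P ≠ P₀ → Ge P 0 f) (ho : Ge P₀ (-1) f) : ∃ c : k, f = algebraMap k K c := by
  by_cases hf0 : f = 0
  · exact ⟨0, by simp [hf0]⟩
  have h1 : -1 ≤ P₀.ord f := ho.resolve_left hf0
  have h2 : P₀.ord f ≠ -1 := fun h2 => no1 k K lam x y h f P₀ h2 hf
  apply const_of_hgt
  unfold hgt
  refine le_of_eq (finsum_eq_zero_of_forall_eq_zero fun P => ?_)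
  by_cases hP : P = P₀
  · rw [hP]; omega
  · have := (hf P hP).resolve_left hf0
    omega

theorem ell_place_le (no1 : StmNo1) (h : Ell k K lam x y) (P₀ : Place k K) :
    ell (Finsupp.single P₀ 1) ≤ 1 := by
  have h1 : LL (Finsupp.single P₀ (1 : ℤ)) ≤ Submodule.span k {(1 : K)} := by
    intro f hf
    rw [mem_LL_single] at hf
    obtain ⟨c, hc⟩ := const_of_pole no1 h P₀ hf.1 hf.2
    rw [hc, Algebra.algebraMap_eq_smul_one]
    exact Submodule.smul_mem _ _ (Submodule.mem_span_singleton_self _)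
  have h2 := Submodule.finrank_mono h1
  have h3 : Module.finrank k (Submodule.span k {(1 : K)}) = 1 := finrank_span_singleton one_ne_zero
  unfold ell
  rw [h3] at h2
  exact_mod_cast h2

theorem ell_le_one (no1 : StmNo1) (h : Ell k K lam x y) {D : Place k K →₀ ℤ}
    (hD : ddeg D = 1) (hpos : 1 ≤ ell D) : ell D ≤ 1 := by
  obtain ⟨f, hf, hf0⟩ := exists_ne_zero_of_ell_pos (D := D) (by omega)
  rw [mem_LL' hf0] at hf
  have h1 : ddeg (divisor k f + D) = 1 := by
    rw [ddeg_add, ddeg_divisor, hD]; norm_num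
  obtain ⟨P₀, hP⟩ := eq_single_of_deg hf h1
  rw [← ell_add_divisor D hf0, add_comm, hP]
  exact ell_place_le no1 h P₀

end

theorem rr : StmInf → StmNo1 → StmBasis → StmRR := by
  intro hinf no1 hb k K _ _ _ _ _ _ lam x y h D hD
  obtain ⟨o, hx, hy, hreg⟩ := hinf k K lam x y h
  have hle := ddeg_le_ell hb h o (by omega)
  refine le_antisymm ?_ (hle D)
  have h0 : (0 : Place k K →₀ ℤ) ≤ Finsupp.single o (ddeg D - 1) := by
    rw [Finsupp.single_nonneg]
    omega
  have h1 : D - Finsupp.single o (ddeg D - 1) ≤ D := sub_le_self _ h0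
  have h2 := ell_le h1
  have h3 : ddeg (D - Finsupp.single o (ddeg D - 1)) = 1 := by
    rw [ddeg_sub, ddeg_single, deg_one]; push_cast; ring
  have h4 := hle (D - Finsupp.single o (ddeg D - 1))
  have h5 := ell_le_one no1 h h3 (by omega)
  omega

end Pool.Agent.Q113.DP
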